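import Pool.Agent.H73.PHS.Stmts

set_option autoImplicit false

open Set Filter Topology MeasureTheory Metric

namespace Pool.PHS

theorem CLM_thm (hEXT : EXTStmt) (hIDN : IDNStmt) : CLMStmt := by
  classical
  intro n hn Ω L A B hΩ hbd hpre hprec hL hLΩ hA hB hAB hcov
  set g : Cn n → ℂ := fun z => if z ∈ A then 1 else 0 with hg
  have hgd : DifferentiableOn ℂ g (Ω \ L) := by
    intro z hz
    rcases hcov hz with h | h
    · have h1 : g =ᶠ[𝓝 z] fun _ => (1 : ℂ) := by
        filter_upwards [hA.mem_nhds h] with w hw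
        simp [hg, hw]
      exact (h1.differentiableAt_iff.mpr (differentiableAt_const _)).differentiableWithinAt
    · have h1 : g =ᶠ[𝓝 z] fun _ => (0 : ℂ) := by
        filter_upwards [hB.mem_nhds h] with w hw
        have : w ∉ A := fun hwA => (Set.disjoint_left.mp hAB hwA) hw
        simp [hg, this]
      exact (h1.differentiableAt_iff.mpr (differentiableAt_const _)).differentiableWithinAt
  obtain ⟨F, ε, hε, hF, hFg⟩ := hEXT n hn Ω L g hΩ hbd hprec hL hLΩ hgd
  refine ⟨ε, hε, ?_⟩
  set V : Set (Cn n) := Ω ∩ {z | infDist z Ωᶜ < ε} with hV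
  have hVo : IsOpen V := hΩ.inter (isOpen_lt (continuous_infDist_pt _) continuous_const)
  rcases V.eq_empty_or_nonempty with hVe | hVne
  · left
    intro z hz hd
    have : z ∈ V := ⟨hz, hd⟩
    rw [hVe] at this
    exact absurd this (Set.notMem_empty z)
  · have h01 : EqOn (fun z => F z * (F z - 1)) (fun _ => (0 : ℂ)) V := by
      intro z hz
      have h1 := (hFg z hz.1 hz.2).2
      simp only [h1, hg]
      by_cases hzA : z ∈ A
      · simp [hzA]
      · simp [hzA]
    have hall := hIDN n (fun z => F z * (F z - 1)) (fun _ => (0 : ℂ)) Ω V hΩ hpre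
      (hF.mul (hF.sub (differentiableOn_const _))) (differentiableOn_const _) hVo
      Set.inter_subset_left hVne h01
    have hmaps : MapsTo F Ω ({0, 1} : Set ℂ) := by
      intro z hz
      have h1 : F z * (F z - 1) = 0 := hall hz
      rcases mul_eq_zero.mp h1 with h2 | h2
      · left; exact h2
      · right; exact sub_eq_zero.mp h2
    have hfin : ({0, 1} : Set ℂ).Finite := by simp
    have hdis : IsDiscrete ({0, 1} : Set ℂ) := hfin.isDiscrete
    obtain ⟨c, hc, hFc⟩ := hpre.eqOn_const_of_mapsTo hdis hF.continuousOn hmaps ⟨0, by simp⟩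
    rcases hc with hc | hc
    · right
      intro z hz hd
      obtain ⟨h1, h2⟩ := hFg z hz hd
      have h3 : F z = 0 := by rw [hFc hz]; exact hc
      rw [h3] at h2
      have h4 : z ∉ A := by
        intro hzA
        simp [hg, hzA] at h2
      exact (hcov ⟨hz, h1⟩).resolve_left h4
    · left
      intro z hz hd
      obtain ⟨h1, h2⟩ := hFg z hz hd
      have h3 : F z = 1 := by rw [hFc hz]; exact hc
      rw [h3] at h2
      by_contra hzA
      simp [hg, hzA] at h2

end Pool.PHS
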